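import Pool.Agent.NNf.Dead11
import Pool.Agent.NNf.Dead13
import Pool.Agent.NNf.Dead15

/-!
# Monohedral convex tilings in which every tile has exactly `n` neighbours:
# only the nine known values of `n` occur
-/

namespace Pool.Agent.Results.MP_4b6a99_co.NineValues

open Pool.Agent.NNb

/-- If there is an `n`-neighbour tiling of the plane by congruent copies of one convex polygon
(`K(n) = 1`), then `n` is one of the nine known values. -/
theorem result (n : ℕ) (h : KEqOne n) : n ∈ ({6, 7, 8, 9, 10, 12, 14, 16, 21} : Finset ℕ) :=
  Pool.Agent.NNc.keqone_fin Pool.Agent.NNe.dead11 Pool.Agent.NNe.dead13 Pool.Agent.NNe.dead15 n h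

end Pool.Agent.Results.MP_4b6a99_co.NineValues
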